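import Pool.Agent.H.MP_35e3b8_an.Main

namespace Pool.Agent.Results.MP_35e3b8_an.Far

open NNReal Pool.Agent.H.MP_35e3b8_an

theorem result (ε : ℝ≥0) (hε : 0 < ε) :
    ∃ (M : Type) (_ : MetricSpace M) (o : M) (G : Type) (_ : Group G) (_ : MulAction G M)
      (_ : IsIsometricSMul G M) (f : M → ℝ), f o = 0 ∧ IsLeast {K | LipschitzWith K f} 1 ∧
      (∀ g : G, LipschitzWith ε fun x => f (g⁻¹ • x) - f (g⁻¹ • o) - f x) ∧
      ∀ h : M → ℝ, h o = 0 → (∀ (g : G) x, h (g⁻¹ • x) - h (g⁻¹ • o) = h x) →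
        ∀ K, LipschitzWith K (fun x => f x - h x) → 1 ≤ K := by
  refine ⟨M (2 / ε), inferInstance, o _, G, inferInstance, inferInstance, inferInstance, f, rfl,
    ⟨lip _, fun K hK => far f hK rfl fun n => add_zero _⟩, fun g => inv_lip ε hε _,
    fun h h0 hi K hK => far _ hK (by rw [h0]; exact sub_self _) fun n => ?_⟩
  rw [hom_zero (N := 2 / ε) h (fun g k => ?_) hK n, sub_zero]
  · exact add_zero _
  · have : h (g⁻¹⁻¹ * k : G) - h (g⁻¹⁻¹ * 1 : G) = h k := hi g⁻¹ k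
    rw [inv_inv, mul_one] at this
    linarith

end Pool.Agent.Results.MP_35e3b8_an.Far
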